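import Pool.Agent.Run7.h744.DD.Iface

/-!
Project DD, piece DUAL: the cells span a dense set (duality).
-/

set_option autoImplicit false

open MeasureTheory Set Filter Topology
open scoped InnerProductSpace ContDiff

namespace Run7.h234.DD

open Run7.h744.DD
open H772R2.NS (E3 M3 L2V L2M graphW tensL IsTest jac L2sigma)

/-! ### Calculus of `pd` -/

theorem pd_smooth {f : E3 → ℝ} (hf : ContDiff ℝ ∞ f) (i : Fin 3) : ContDiff ℝ ∞ (pd i f) := by
  unfold pd
  exact (hf.fderiv_right (m := ∞) (by simp)).clm_apply contDiff_const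

theorem sm_diff {f : E3 → ℝ} (hf : ContDiff ℝ ∞ f) : Differentiable ℝ f :=
  hf.differentiable (by simp)

theorem pd_sub {f g : E3 → ℝ} (hf : ContDiff ℝ ∞ f) (hg : ContDiff ℝ ∞ g) (i : Fin 3) (x : E3) :
    pd i (fun x => f x - g x) x = pd i f x - pd i g x := by
  simp only [pd]
  rw [fderiv_fun_sub (sm_diff hf x) (sm_diff hg x)]; rfl

theorem pd_sum {ι : Type} (s : Finset ι) {f : ι → E3 → ℝ} (hf : ∀ j, ContDiff ℝ ∞ (f j))
    (i : Fin 3) (x : E3) : pd i (fun x => ∑ j ∈ s, f j x) x = ∑ j ∈ s, pd i (f j) x := by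
  simp only [pd]
  rw [fderiv_fun_sum (fun j _ => sm_diff (hf j) x)]
  simp

theorem pd_comm {f : E3 → ℝ} (hf : ContDiff ℝ ∞ f) (i j : Fin 3) (x : E3) :
    pd i (pd j f) x = pd j (pd i f) x := by
  have h : IsSymmSndFDerivAt ℝ f x := hf.contDiffAt.isSymmSndFDerivAt
    (by simpa using WithTop.coe_le_coe.mpr (le_top : (2 : ℕ∞) ≤ ⊤))
  have hd : Differentiable ℝ (fderiv ℝ f) :=
    (hf.fderiv_right (m := ∞) (by simp)).differentiable (by simp)
  have key : ∀ a b : E3, fderiv ℝ (fun y => fderiv ℝ f y a) x b = fderiv ℝ (fderiv ℝ f) x b a := by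
    intro a b
    have h1 := (hd x).hasFDerivAt.clm_apply (hasFDerivAt_const a x)
    rw [h1.fderiv]
    simp
  have e1 : pd i (pd j f) x = fderiv ℝ (fderiv ℝ f) x (EuclideanSpace.single i 1)
      (EuclideanSpace.single j 1) := key _ _
  have e2 : pd j (pd i f) x = fderiv ℝ (fderiv ℝ f) x (EuclideanSpace.single j 1)
      (EuclideanSpace.single i 1) := key _ _
  rw [e1, e2]
  exact h.eq _ _

theorem comp_smooth {φ : E3 → E3} (hφ : ContDiff ℝ ∞ φ) (k : Fin 3) :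
    ContDiff ℝ ∞ (fun x => φ x k) :=
  (EuclideanSpace.proj k : E3 →L[ℝ] ℝ).contDiff.comp hφ

theorem sum_smooth {ι : Type} (s : Finset ι) {f : ι → E3 → ℝ} (hf : ∀ j, ContDiff ℝ ∞ (f j)) :
    ContDiff ℝ ∞ (fun x => ∑ j ∈ s, f j x) :=
  ContDiff.sum fun j _ => hf j

theorem lapS_smooth {f : E3 → ℝ} (hf : ContDiff ℝ ∞ f) : ContDiff ℝ ∞ (lapS f) :=
  sum_smooth _ fun j => pd_smooth (pd_smooth hf j) j

theorem div_smooth {φ : E3 → E3} (hφ : ContDiff ℝ ∞ φ) :
    ContDiff ℝ ∞ (fun y => ∑ j, pd j (fun z => φ z j) y) :=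
  sum_smooth _ fun j => pd_smooth (comp_smooth hφ j) j

theorem cc_smooth {φ : E3 → E3} (hφ : ContDiff ℝ ∞ φ) (l : Fin 3) : ContDiff ℝ ∞ (cc φ l) :=
  (pd_smooth (div_smooth hφ) l).sub (lapS_smooth (comp_smooth hφ l))

/-- `div curl curl = 0`. -/
theorem sum_pd_cc {φ : E3 → E3} (hφ : ContDiff ℝ ∞ φ) (x : E3) : ∑ l, pd l (cc φ l) x = 0 := by
  have e : ∀ l, pd l (cc φ l) x
      = ∑ j, pd l (pd l (pd j (fun z => φ z j))) x - ∑ j, pd j (pd j (pd l (fun z => φ z l))) x := by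
    intro l
    have h1 : pd l (cc φ l) x = pd l (pd l (fun y => ∑ j, pd j (fun z => φ z j) y)) x
        - pd l (lapS (fun y => φ y l)) x :=
      pd_sub (pd_smooth (div_smooth hφ) l) (lapS_smooth (comp_smooth hφ l)) l x
    have h2 : pd l (fun y => ∑ j, pd j (fun z => φ z j) y)
        = fun y => ∑ j, pd l (pd j (fun z => φ z j)) y :=
      funext fun y => pd_sum _ (fun j => pd_smooth (comp_smooth hφ j) j) l y
    have h3 : pd l (lapS (fun y => φ y l)) x = ∑ j, pd l (pd j (pd j (fun y => φ y l))) x :=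
      pd_sum _ (fun j => pd_smooth (pd_smooth (comp_smooth hφ l) j) j) l x
    rw [h1, h2, pd_sum _ (fun j => pd_smooth (pd_smooth (comp_smooth hφ j) j) l) l x, h3]
    congr 1
    refine Finset.sum_congr rfl fun j _ => ?_
    rw [pd_comm (pd_smooth (comp_smooth hφ l) j) l j x]
    congr 1
    exact funext fun y => pd_comm (comp_smooth hφ l) l j y
  rw [Finset.sum_congr rfl fun l _ => e l, Finset.sum_sub_distrib, sub_eq_zero]
  rw [Finset.sum_comm]

theorem pd_zero_on {U : Set E3} (hU : IsOpen U) {f : E3 → ℝ} (h : ∀ y ∈ U, f y = 0) (i : Fin 3) :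
    ∀ y ∈ U, pd i f y = 0 := by
  intro y hy
  have h1 : f =ᶠ[𝓝 y] fun _ => 0 := by
    filter_upwards [hU.mem_nhds hy] with z hz using h z hz
  simp only [pd]
  rw [h1.fderiv_eq]
  simp

theorem psi_zero {φ : E3 → E3} {U : Set E3} (hU : IsOpen U) (h : ∀ y ∈ U, φ y = 0) (l : Fin 3) :
    ∀ y ∈ U, pd l (cc φ l) y = 0 := by
  have h0 : ∀ j, ∀ y ∈ U, (fun z => φ z j) y = 0 := fun j y hy => by simp [h y hy]
  refine pd_zero_on hU (fun y hy => ?_) l
  have h1 : ∀ y ∈ U, (fun y => ∑ j, pd j (fun z => φ z j) y) y = 0 := fun y hy =>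
    Finset.sum_eq_zero fun j _ => pd_zero_on hU (h0 j) j y hy
  have h2 : lapS (fun y => φ y l) y = 0 :=
    Finset.sum_eq_zero fun j _ => pd_zero_on hU (pd_zero_on hU (h0 l) j) j y hy
  unfold cc
  rw [pd_zero_on hU h1 l y hy, h2, sub_zero]

/-! ### Scaling -/

theorem scl_smooth {b : E3 → ℝ} (hb : ContDiff ℝ ∞ b) (x0 : E3) (ρ : ℝ) :
    ContDiff ℝ ∞ (scl x0 ρ b) := by
  unfold scl
  exact hb.comp ((contDiff_id.sub contDiff_const).const_smul ρ⁻¹)

theorem scl_int (b ψ : E3 → ℝ) (x0 : E3) {ρ : ℝ} (hρ : 0 < ρ) :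
    ∫ x, scl x0 ρ b x * ψ x = ρ ^ 3 * ∫ y, b y * ψ (x0 + ρ • y) := by
  have h1 := Measure.integral_comp_smul (volume : Measure E3)
    (fun y => b y * ψ (x0 + ρ • y)) ρ⁻¹
  have h2 := integral_sub_right_eq_self (μ := (volume : Measure E3))
    (fun x : E3 => b (ρ⁻¹ • x) * ψ (x0 + ρ • ρ⁻¹ • x)) x0
  have h3 : ∀ x : E3, scl x0 ρ b x * ψ x = b (ρ⁻¹ • (x - x0)) * ψ (x0 + ρ • ρ⁻¹ • (x - x0)) := by
    intro x
    rw [smul_smul, mul_inv_cancel₀ hρ.ne', one_smul, add_sub_cancel]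
    rfl
  rw [integral_congr_ae (Eventually.of_forall h3)]
  rw [h2, h1]
  simp only [finrank_euclideanSpace, Fintype.card_fin, smul_eq_mul]
  congr 1
  rw [inv_pow, inv_inv, abs_of_pos (by positivity)]

theorem lim_int {b ψ : E3 → ℝ} (hb : Continuous b) (hbc : HasCompactSupport b)
    (hψ : Continuous ψ) {M : ℝ} (hM : ∀ x, ‖ψ x‖ ≤ M) (x0 : E3) :
    Tendsto (fun ρ : ℝ => ∫ y, b y * ψ (x0 + ρ • y)) (𝓝[>] 0) (𝓝 ((∫ y, b y) * ψ x0)) := by
  have hbi : Integrable b := hb.integrable_of_hasCompactSupport hbc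
  rw [← integral_mul_const]
  refine tendsto_integral_filter_of_dominated_convergence (fun y => ‖b y‖ * M) ?_ ?_ ?_ ?_
  · refine Eventually.of_forall fun ρ => ?_
    exact (hb.mul (hψ.comp (continuous_const.add (continuous_id.const_smul ρ)))).aestronglyMeasurable
  · refine Eventually.of_forall fun ρ => Eventually.of_forall fun y => ?_
    rw [norm_mul]
    exact mul_le_mul_of_nonneg_left (hM _) (norm_nonneg _)
  · exact hbi.norm.mul_const M
  · refine Eventually.of_forall fun y => ?_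
    refine Tendsto.mono_left ?_ nhdsWithin_le_nhds
    have hc : Continuous fun ρ : ℝ => b y * ψ (x0 + ρ • y) :=
      continuous_const.mul (hψ.comp (continuous_const.add (continuous_id.smul continuous_const)))
    have := hc.tendsto 0
    simpa using this

/-! ### Linear algebra in `ℝ³` -/

theorem perm_pair : ∀ i i' j k : Fin 3, i ≠ i' → j ≠ k → ∃ σ τ : Equiv.Perm (Fin 3),
    σ i = j ∧ σ i' = k ∧ τ i = k ∧ τ i' = j ∧ ∀ l, l ≠ i ∧ l ≠ i' → σ l = τ l := by
  decide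

theorem all_zero {m p : Fin 3 → ℝ} {j k : Fin 3} (hjk : m j ≠ m k)
    (h : ∀ σ : Equiv.Perm (Fin 3), ∑ l, m (σ l) * p l = 0) (hs : ∑ l, p l = 0) :
    ∀ l, p l = 0 := by
  have hjk' : j ≠ k := fun h => hjk (by rw [h])
  have heq : ∀ i i' : Fin 3, p i = p i' := by
    intro i i'
    by_cases hi : i = i'
    · rw [hi]
    obtain ⟨σ, τ, h1, h2, h3, h4, h5⟩ := perm_pair i i' j k hi hjk'
    have e : ∑ l, (m (σ l) - m (τ l)) * p l = 0 := by
      simp only [sub_mul, Finset.sum_sub_distrib, h σ, h τ, sub_zero]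
    rw [Fintype.sum_eq_add i i' hi (fun l hl => by rw [h5 l hl, sub_self, zero_mul]), h1, h2, h3,
      h4] at e
    have e2 : (m j - m k) * (p i - p i') = 0 := by linarith
    rcases mul_eq_zero.mp e2 with e3 | e3
    · exact absurd (sub_eq_zero.mp e3) hjk
    · exact sub_eq_zero.mp e3
  intro l
  have e : ∑ i, p i = 3 * p l := by
    rw [Finset.sum_congr rfl fun i _ => heq i l]
    simp
  linarith [hs, e]

/-! ### The functional -/

theorem cellV_smooth {b : Fin 3 → E3 → ℝ} (hb : ∀ k, ContDiff ℝ ∞ (b k)) (x0 : E3) (ρ : ℝ)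
    (σ : Equiv.Perm (Fin 3)) (k : Fin 3) : ContDiff ℝ ∞ (fun x => cellV b x0 ρ σ x k) := by
  have h1 : ContDiff ℝ ∞ (fun x => pd k (lapS (scl x0 ρ (b (σ k)))) x
      - pd k (fun y => ∑ l, pd l (pd l (scl x0 ρ (b (σ l)))) y) x) :=
    (pd_smooth (lapS_smooth (scl_smooth (hb _) x0 ρ)) k).sub
      (pd_smooth (sum_smooth _ fun l => pd_smooth (pd_smooth (scl_smooth (hb _) x0 ρ) l) l) k)
  exact h1

/-- The moments of a cell. -/
noncomputable def T {n : ℕ} (b : Fin 3 → E3 → ℝ) (φ : Fin n → E3 → E3) (x0 : E3) (ρ : ℝ)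
    (σ : Equiv.Perm (Fin 3)) (i : Fin n) : ℝ :=
  ∫ x, ∑ k, cellV b x0 ρ σ x k * φ i x k

theorem int_cell {b : Fin 3 → E3 → ℝ} (hb : ∀ k, ContDiff ℝ ∞ (b k)) {φ : E3 → E3} (hφ : Sm φ)
    (x0 : E3) (ρ : ℝ) (σ : Equiv.Perm (Fin 3)) :
    Integrable (fun x => ∑ k, cellV b x0 ρ σ x k * φ x k) := by
  refine integrable_finsetSum _ fun k _ => ?_
  refine Continuous.integrable_of_hasCompactSupport
    ((cellV_smooth hb x0 ρ σ k).continuous.mul (comp_smooth hφ.smooth k).continuous) ?_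
  refine HasCompactSupport.mul_left ?_
  exact hφ.compact.comp_left (g := fun v : E3 => v k) rfl

theorem sm_comb {n : ℕ} {φ : Fin n → E3 → E3} (hφ : ∀ i, Sm (φ i)) (c : Fin n → ℝ) :
    Sm (fun x => ∑ i, c i • φ i x) := by
  constructor
  · exact ContDiff.sum fun i _ => (hφ i).smooth.const_smul (c i)
  · have hK : IsCompact (⋃ i, tsupport (φ i)) := isCompact_iUnion fun i => (hφ i).compact
    refine HasCompactSupport.intro hK fun x hx => ?_
    refine Finset.sum_eq_zero fun i _ => ?_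
    rw [image_eq_zero_of_notMem_tsupport (fun h => hx (mem_iUnion.mpr ⟨i, h⟩)), smul_zero]

/-- All cell integrals against `φ` vanish: `∂_l (curl curl φ)_l = 0` in `Ω`. -/
theorem local_zero (hMOM : S_MOM) {α b : Fin 3 → E3 → ℝ} {A : E3 → ℝ} (hc : Cell α b A)
    {Ω : Set E3} (hΩ : IsOpen Ω) {φ : E3 → E3} (hφ : Sm φ)
    (h : ∀ (x0 : E3) (ρ : ℝ) (σ : Equiv.Perm (Fin 3)), 0 < ρ → Metric.closedBall x0 ρ ⊆ Ω →
      ∫ x, ∑ k, cellV b x0 ρ σ x k * φ x k = 0) (l : Fin 3) {x0 : E3} (hx0 : x0 ∈ Ω) :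
    pd l (cc φ l) x0 = 0 := by
  have hbc : ∀ k, HasCompactSupport (b k) := fun k =>
    HasCompactSupport.intro' (isCompact_closedBall (0 : E3) 1) Metric.isClosed_closedBall
      fun x hx => image_eq_zero_of_notMem_tsupport fun h' => hx (hc.tb k h')
  have hψc : ∀ l, Continuous (pd l (cc φ l)) := fun l =>
    (pd_smooth (cc_smooth hφ.smooth l) l).continuous
  have hψs : ∀ l, HasCompactSupport (pd l (cc φ l)) := fun l =>
    HasCompactSupport.intro' hφ.compact (isClosed_tsupport φ) fun x hx =>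
      psi_zero (isClosed_tsupport φ).isOpen_compl
        (fun y hy => image_eq_zero_of_notMem_tsupport hy) l x hx
  obtain ⟨j, k, hjk⟩ := hc.mom
  refine all_zero (m := fun k => ∫ x, b k x) (p := fun l => pd l (cc φ l) x0) hjk ?_
    (sum_pd_cc hφ.smooth x0) l
  intro σ
  have ht : Tendsto (fun ρ : ℝ => ∑ l, ∫ y, b (σ l) y * pd l (cc φ l) (x0 + ρ • y)) (𝓝[>] 0)
      (𝓝 (∑ l, (∫ y, b (σ l) y) * pd l (cc φ l) x0)) := by
    refine tendsto_finsetSum _ fun l _ => ?_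
    obtain ⟨M, hM⟩ := (hψs l).exists_bound_of_continuous (hψc l)
    exact lim_int (hc.sb _).continuous (hbc _) (hψc l) hM x0
  refine tendsto_nhds_unique ht ?_
  obtain ⟨ρ0, hρ0, hb0⟩ := Metric.nhds_basis_closedBall.mem_iff.mp (hΩ.mem_nhds hx0)
  have hev : ∀ᶠ ρ : ℝ in 𝓝[>] 0,
      (∑ l, ∫ y, b (σ l) y * pd l (cc φ l) (x0 + ρ • y)) = 0 := by
    filter_upwards [Ioo_mem_nhdsGT hρ0] with ρ hρ
    have h1 := h x0 ρ σ hρ.1 ((Metric.closedBall_subset_closedBall hρ.2.le).trans hb0)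
    rw [hMOM b hc.sb hc.tb φ hφ x0 ρ σ hρ.1] at h1
    rw [Finset.sum_congr rfl fun l _ => scl_int (b (σ l)) (pd l (cc φ l)) x0 hρ.1,
      ← Finset.mul_sum] at h1
    rcases mul_eq_zero.mp h1 with h2 | h2
    · exact absurd h2 (pow_pos hρ.1 3).ne'
    · exact h2
  exact tendsto_const_nhds.congr' (hev.mono fun ρ h => h.symm)

/-- The three cyclic shifts of a cell add up to zero. -/
theorem T_cyc (hMOM : S_MOM) {b : Fin 3 → E3 → ℝ} (hb : ∀ k, ContDiff ℝ ∞ (b k))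
    (tb : ∀ k, tsupport (b k) ⊆ Metric.closedBall 0 1) {n : ℕ} {φ : Fin n → E3 → E3}
    (hφ : ∀ i, Sm (φ i)) (x0 : E3) {ρ : ℝ} (hρ : 0 < ρ) (σ : Equiv.Perm (Fin 3)) (i : Fin n) :
    ∑ s : Fin 3, T b φ x0 ρ ((Equiv.addRight s).trans σ) i = 0 := by
  have hψs : ∀ l, HasCompactSupport (pd l (cc (φ i) l)) := fun l =>
    HasCompactSupport.intro' (hφ i).compact (isClosed_tsupport (φ i)) fun x hx =>
      psi_zero (isClosed_tsupport (φ i)).isOpen_compl
        (fun y hy => image_eq_zero_of_notMem_tsupport hy) l x hx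
  have hI : ∀ k, ∑ l, ∫ x, scl x0 ρ (b k) x * pd l (cc (φ i) l) x = 0 := by
    intro k
    have h1 : ∫ x, ∑ l, scl x0 ρ (b k) x * pd l (cc (φ i) l) x
        = ∑ l, ∫ x, scl x0 ρ (b k) x * pd l (cc (φ i) l) x :=
      integral_finsetSum _ fun l _ => Continuous.integrable_of_hasCompactSupport
        ((scl_smooth (hb k) x0 ρ).continuous.mul
          (pd_smooth (cc_smooth (hφ i).smooth l) l).continuous) ((hψs l).mul_left)
    rw [← h1]
    simp only [← Finset.mul_sum, sum_pd_cc (hφ i).smooth, mul_zero, integral_zero]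
  have hT : ∀ s : Fin 3, T b φ x0 ρ ((Equiv.addRight s).trans σ) i
      = ∑ l, ∫ x, scl x0 ρ (b (σ (l + s))) x * pd l (cc (φ i) l) x := by
    intro s
    exact hMOM b hb tb (φ i) (hφ i) x0 ρ _ hρ
  rw [Finset.sum_congr rfl fun s _ => hT s, Finset.sum_comm]
  have h3 : ∀ l : Fin 3, ∑ s, ∫ x, scl x0 ρ (b (σ (l + s))) x * pd l (cc (φ i) l) x
      = ∑ k, ∫ x, scl x0 ρ (b k) x * pd l (cc (φ i) l) x := by
    intro l
    exact Equiv.sum_comp ((Equiv.addLeft l).trans σ)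
      (fun k => ∫ x, scl x0 ρ (b k) x * pd l (cc (φ i) l) x)
  rw [Finset.sum_congr rfl fun l _ => h3 l, Finset.sum_comm]
  exact Finset.sum_eq_zero fun k _ => hI k

/-- Positive combinations of the moment vectors of cells in `Ω`. -/
def Pos {n : ℕ} (b : Fin 3 → E3 → ℝ) (Ω : Set E3) (φ : Fin n → E3 → E3) (v : Fin n → ℝ) : Prop :=
  ∃ (ι : Type) (_ : Fintype ι) (x0 : ι → E3) (ρ β : ι → ℝ) (σ : ι → Equiv.Perm (Fin 3)),
    (∀ j, 0 < ρ j) ∧ (∀ j, 0 < β j) ∧ (∀ j, Metric.closedBall (x0 j) (ρ j) ⊆ Ω) ∧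
    ∀ i, ∑ j, β j * T b φ (x0 j) (ρ j) (σ j) i = v i

theorem pos_add {n : ℕ} {b : Fin 3 → E3 → ℝ} {Ω : Set E3} {φ : Fin n → E3 → E3}
    {v w : Fin n → ℝ} (hv : Pos b Ω φ v) (hw : Pos b Ω φ w) : Pos b Ω φ (v + w) := by
  obtain ⟨ι, _, x, ρ, β, σ, h1, h2, h3, h4⟩ := hv
  obtain ⟨ι', _, x', ρ', β', σ', h1', h2', h3', h4'⟩ := hw
  refine ⟨ι ⊕ ι', inferInstance, Sum.elim x x', Sum.elim ρ ρ', Sum.elim β β', Sum.elim σ σ',
    ?_, ?_, ?_, ?_⟩
  · rintro (j | j)
    · exact h1 j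
    · exact h1' j
  · rintro (j | j)
    · exact h2 j
    · exact h2' j
  · rintro (j | j)
    · exact h3 j
    · exact h3' j
  · intro i
    simp only [Fintype.sum_sum_type, Sum.elim_inl, Sum.elim_inr, h4 i, h4' i, Pi.add_apply]

theorem pos_smul {n : ℕ} {b : Fin 3 → E3 → ℝ} {Ω : Set E3} {φ : Fin n → E3 → E3}
    {v : Fin n → ℝ} (hv : Pos b Ω φ v) {c : ℝ} (hc : 0 < c) : Pos b Ω φ (c • v) := by
  obtain ⟨ι, _, x, ρ, β, σ, h1, h2, h3, h4⟩ := hv
  refine ⟨ι, inferInstance, x, ρ, fun j => c * β j, σ, h1, fun j => mul_pos hc (h2 j), h3, ?_⟩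
  intro i
  simp only [mul_assoc, ← Finset.mul_sum, h4 i, Pi.smul_apply, smul_eq_mul]

theorem pos_neg (hMOM : S_MOM) {n : ℕ} {b : Fin 3 → E3 → ℝ} (hb : ∀ k, ContDiff ℝ ∞ (b k))
    (tb : ∀ k, tsupport (b k) ⊆ Metric.closedBall 0 1) {Ω : Set E3} {φ : Fin n → E3 → E3}
    (hφ : ∀ i, Sm (φ i)) {v : Fin n → ℝ} (hv : Pos b Ω φ v) : Pos b Ω φ (-v) := by
  obtain ⟨ι, _, x, ρ, β, σ, h1, h2, h3, h4⟩ := hv
  refine ⟨ι ⊕ ι, inferInstance, Sum.elim x x, Sum.elim ρ ρ, Sum.elim β β,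
    Sum.elim (fun j => (Equiv.addRight 1).trans (σ j)) (fun j => (Equiv.addRight 2).trans (σ j)),
    ?_, ?_, ?_, ?_⟩
  · rintro (j | j) <;> exact h1 j
  · rintro (j | j) <;> exact h2 j
  · rintro (j | j) <;> exact h3 j
  · intro i
    simp only [Fintype.sum_sum_type, Sum.elim_inl, Sum.elim_inr, Pi.neg_apply, ← h4 i]
    rw [← Finset.sum_add_distrib, ← Finset.sum_neg_distrib]
    refine Finset.sum_congr rfl fun j _ => ?_
    have h := T_cyc hMOM hb tb hφ (x j) (h1 j) (σ j) i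
    rw [Fin.sum_univ_three] at h
    have h0 : (Equiv.addRight (0 : Fin 3)).trans (σ j) = σ j := by
      ext l; simp
    rw [h0] at h
    have : T b φ (x j) (ρ j) ((Equiv.addRight 1).trans (σ j)) i
        + T b φ (x j) (ρ j) ((Equiv.addRight 2).trans (σ j)) i
        = - T b φ (x j) (ρ j) (σ j) i := by linarith
    rw [← mul_add, this, mul_neg]

theorem pos_span (hMOM : S_MOM) {n : ℕ} {b : Fin 3 → E3 → ℝ} (hb : ∀ k, ContDiff ℝ ∞ (b k))
    (tb : ∀ k, tsupport (b k) ⊆ Metric.closedBall 0 1) {Ω : Set E3} {φ : Fin n → E3 → E3}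
    (hφ : ∀ i, Sm (φ i)) {v : Fin n → ℝ}
    (hv : v ∈ Submodule.span ℝ {t : Fin n → ℝ | ∃ (x0 : E3) (ρ : ℝ) (σ : Equiv.Perm (Fin 3)),
      0 < ρ ∧ Metric.closedBall x0 ρ ⊆ Ω ∧ t = T b φ x0 ρ σ}) : Pos b Ω φ v := by
  have hzero : Pos b Ω φ 0 :=
    ⟨Empty, inferInstance, fun e => e.elim, fun e => e.elim, fun e => e.elim, fun e => e.elim,
      fun e => e.elim, fun e => e.elim, fun e => e.elim, fun i => by simp⟩
  induction hv using Submodule.span_induction with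
  | mem t ht =>
    obtain ⟨x0, ρ, σ, h1, h2, rfl⟩ := ht
    exact ⟨Unit, inferInstance, fun _ => x0, fun _ => ρ, fun _ => 1, fun _ => σ, fun _ => h1,
      fun _ => one_pos, fun _ => h2, fun i => by simp⟩
  | zero => exact hzero
  | add v w _ _ hv hw => exact pos_add hv hw
  | smul c v _ hv =>
    rcases lt_trichotomy c 0 with hc | hc | hc
    · have := pos_neg hMOM hb tb hφ (pos_smul hv (neg_pos.mpr hc))
      rwa [neg_smul, neg_neg] at this
    · rw [hc, zero_smul]; exact hzero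
    · exact pos_smul hv hc

theorem int_w {Ω : Set E3} (w : L2V Ω) {φ : E3 → E3} (hφ : Sm φ) :
    Integrable (fun x => ∑ k, w x k * φ x k) (volume.restrict Ω) := by
  refine integrable_finsetSum _ fun k _ => ?_
  have h1 : MemLp (fun x => w x k) 2 (volume.restrict Ω) :=
    (EuclideanSpace.proj k : E3 →L[ℝ] ℝ).comp_memLp' (Lp.memLp w)
  have h2 : MemLp (fun x => φ x k) 2 (volume.restrict Ω) :=
    ((comp_smooth hφ.smooth k).continuous.memLp_of_hasCompactSupport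
      (hφ.compact.comp_left (g := fun v : E3 => v k) rfl)).restrict Ω
  exact h1.integrable_mul h2

theorem t_DUAL : S_MOM → S_CUR → S_DUAL := by
  intro hMOM hCUR α b A hc Ω hΩ n φ hφ hφΩ w hw
  have key : (fun i => ∫ x in Ω, ∑ k, w x k * φ i x k) ∈
      Submodule.span ℝ {t : Fin n → ℝ | ∃ (x0 : E3) (ρ : ℝ) (σ : Equiv.Perm (Fin 3)),
      0 < ρ ∧ Metric.closedBall x0 ρ ⊆ Ω ∧ t = T b φ x0 ρ σ} := by
    by_contra hn
    obtain ⟨f, hf1, hf2⟩ := Submodule.exists_dual_map_eq_bot_of_notMem hn inferInstance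
    have hf3 : ∀ v : Fin n → ℝ, f v = ∑ i, f (Pi.single i 1) * v i := by
      intro v
      conv_lhs => rw [← LinearMap.sum_single_apply (fun _ : Fin n => ℝ) v]
      rw [map_sum]
      refine Finset.sum_congr rfl fun i _ => ?_
      have : (Pi.single i (v i) : Fin n → ℝ) = v i • Pi.single i (1 : ℝ) := by
        rw [← Pi.single_smul, smul_eq_mul, mul_one]
      rw [this, map_smul, smul_eq_mul, mul_comm]
    set c : Fin n → ℝ := fun i => f (Pi.single i 1) with hcdef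
    set Φ : E3 → E3 := fun x => ∑ i, c i • φ i x with hΦ
    have hΦs : Sm Φ := sm_comb hφ c
    have hcomp : ∀ x k, Φ x k = ∑ i, c i * φ i x k := by
      intro x k
      simp [hΦ]
    have hz : ∀ (x0 : E3) (ρ : ℝ) (σ : Equiv.Perm (Fin 3)), 0 < ρ →
        Metric.closedBall x0 ρ ⊆ Ω → ∫ x, ∑ k, cellV b x0 ρ σ x k * Φ x k = 0 := by
      intro x0 ρ σ hρ hB
      have e1 : ∀ x, ∑ k, cellV b x0 ρ σ x k * Φ x k
          = ∑ i, c i * ∑ k, cellV b x0 ρ σ x k * φ i x k := by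
        intro x
        simp only [hcomp, Finset.mul_sum]
        rw [Finset.sum_comm]
        refine Finset.sum_congr rfl fun i _ => Finset.sum_congr rfl fun k _ => by ring
      rw [integral_congr_ae (Eventually.of_forall e1),
        integral_finsetSum _ fun i _ => (int_cell hc.sb (hφ i) x0 ρ σ).const_mul (c i)]
      simp only [integral_const_mul]
      have e2 : f (T b φ x0 ρ σ) = 0 := by
        have : f (T b φ x0 ρ σ) ∈ Submodule.map f (Submodule.span ℝ {t : Fin n → ℝ |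
            ∃ (x0 : E3) (ρ : ℝ) (σ : Equiv.Perm (Fin 3)),
            0 < ρ ∧ Metric.closedBall x0 ρ ⊆ Ω ∧ t = T b φ x0 ρ σ}) :=
          Submodule.mem_map_of_mem (Submodule.subset_span ⟨x0, ρ, σ, hρ, hB, rfl⟩)
        rw [hf2] at this
        simpa using this
      rw [hf3] at e2
      exact e2
    have hψ : ∀ l x, pd l (cc Φ l) x = 0 := by
      intro l x
      by_cases hx : x ∈ Ω
      · exact local_zero hMOM hc hΩ hΦs hz l hx
      · have hcl : IsClosed (⋃ i, tsupport (φ i)) :=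
          isClosed_iUnion_of_finite fun i => isClosed_tsupport (φ i)
        refine psi_zero hcl.isOpen_compl (fun y hy => ?_) l x ?_
        · refine Finset.sum_eq_zero fun i _ => ?_
          rw [image_eq_zero_of_notMem_tsupport (fun h => hy (mem_iUnion.mpr ⟨i, h⟩)), smul_zero]
        · intro h
          obtain ⟨i, hi⟩ := mem_iUnion.mp h
          exact hx (hφΩ i hi)
    have h0 := hCUR Ω hΩ Φ hΦs hψ w hw
    have e1 : ∀ x, ∑ k, w x k * Φ x k = ∑ i, c i * ∑ k, w x k * φ i x k := by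
      intro x
      simp only [hcomp, Finset.mul_sum]
      rw [Finset.sum_comm]
      refine Finset.sum_congr rfl fun i _ => Finset.sum_congr rfl fun k _ => by ring
    rw [integral_congr_ae (Eventually.of_forall e1),
      integral_finsetSum _ fun i _ => (int_w w (hφ i)).const_mul (c i)] at h0
    simp only [integral_const_mul] at h0
    apply hf1
    rw [hf3]
    exact h0
  obtain ⟨ι, _, x, ρ, β, σ, h1, h2, h3, h4⟩ := pos_span hMOM hc.sb hc.tb hφ key
  let e := (Fintype.equivFin ι).symm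
  refine ⟨Fintype.card ι, x ∘ e, ρ ∘ e, β ∘ e, σ ∘ e, fun j => h1 _, fun j => h2 _,
    fun j => h3 _, fun i => ?_⟩
  have h5 : ∫ x in Ω, ∑ k, w x k * φ i x k = ∑ j, β j * T b φ (x j) (ρ j) (σ j) i := (h4 i).symm
  rw [h5, ← Equiv.sum_comp e]
  refine Finset.sum_congr rfl fun j _ => ?_
  unfold T
  rw [← integral_const_mul]
  refine integral_congr_ae (Eventually.of_forall fun y => ?_)
  simp only [Finset.mul_sum, Function.comp, PiLp.smul_apply, smul_eq_mul, mul_assoc]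

end Run7.h234.DD
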